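import Pool.Agent.helper65.GF.SpecG

/-!
# Row `bz:YF2` (MP_ea335c_an)
-/

set_option autoImplicit false

namespace Pool.Agent.GD

open Finset Metric Filter Topology

/-- The first part of the sum. -/
theorem YF2_low (p n j : ℕ) (g e h : ℕ → ℂ) (hj : 1 ≤ j) (hjp : j ≤ p + 1) (hn : p + 1 < n)
    (hh : ∀ k, k ≤ p → h k = if k + 1 < j then 0 else j * e (k + 1 - j)) :
    ∑ k ∈ range (p + 1), g (n - 1 - k) * h k =
      j * ∑ i ∈ range (p + 1 - j + 1), g ((n - p - 1) + (p + 1 - j) - i) * e i := by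
  have h1 : ∑ k ∈ range (p + 1), g (n - 1 - k) * h k =
      ∑ k ∈ Ico (j - 1) (p + 1), g (n - 1 - k) * (j * e (k + 1 - j)) := by
    rw [Finset.range_eq_Ico, ← Finset.sum_Ico_consecutive _ (Nat.zero_le (j - 1)) (by omega : j - 1 ≤ p + 1)]
    have h2 : ∑ k ∈ Ico 0 (j - 1), g (n - 1 - k) * h k = 0 := by
      refine Finset.sum_eq_zero fun k hk => ?_
      have := (mem_Ico.1 hk).2
      rw [hh k (by omega), if_pos (by omega), mul_zero]
    rw [h2, zero_add]
    refine Finset.sum_congr rfl fun k hk => ?_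
    have := mem_Ico.1 hk
    rw [hh k (by omega), if_neg (by omega)]
  rw [h1, Finset.sum_Ico_eq_sum_range, Finset.mul_sum, show p + 1 - (j - 1) = p + 1 - j + 1 by omega]
  refine Finset.sum_congr rfl fun i hi => ?_
  have := mem_range.1 hi
  rw [show n - 1 - (j - 1 + i) = (n - p - 1) + (p + 1 - j) - i by omega,
    show j - 1 + i + 1 - j = i by omega]
  ring

theorem YF2_E (v e : ℕ → ℂ) (D : ℝ) (hd : DatH v e D) (i : ℕ) :
    ‖e i‖ ≤ EH i - (if i = 1 then D / 2 else 0) := by
  unfold EH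
  rcases Nat.eq_zero_or_pos i with h0 | h0
  · subst h0
    simp [hd.e0]
  · rcases Nat.lt_or_ge 1 i with h1 | h1
    · rw [if_neg (by omega), if_neg (by omega), if_neg (by omega)]
      simpa using hd.e2 i
    · have : i = 1 := by omega
      subst this
      rw [if_neg (by omega), if_pos rfl, if_pos rfl]
      exact hd.e1

/-- The bound for `h m`. -/
theorem YF2_high (h3 : YNW_stmt) (p j : ℕ) (v e h : ℕ → ℂ) (D : ℝ) (hd : DatH v e D) (hj : 1 ≤ j)
    (hh : ∀ k, k ≤ p → h k = if k + 1 < j then 0 else j * e (k + 1 - j))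
    (hm : ∀ m, p < m → ‖h m‖ ≤ ∑ k ∈ range (p + 1), AH p m k * ‖h k‖) (m : ℕ) (hpm : p < m) :
    ‖h m‖ ≤ j * (∑ k ∈ range (p + 1), AH p m k * (if k + 1 < j then 0 else EH (k + 1 - j)) -
      (if j ≤ p then AH p m j * (D / 2) else 0)) := by
  have hA : ∀ k ∈ range (p + 1), 0 ≤ AH p m k := fun k hk =>
    (h3 p m k (by have := mem_range.1 hk; omega) hpm).2.1
  have h1 : ∀ k ∈ range (p + 1), AH p m k * ‖h k‖ ≤
      j * (AH p m k * (if k + 1 < j then 0 else EH (k + 1 - j)) -
      (if k = j then AH p m k * (D / 2) else 0)) := by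
    intro k hk
    have hk' := mem_range.1 hk
    rw [hh k (by omega)]
    by_cases hc : k + 1 < j
    · rw [if_pos hc, if_pos hc, if_neg (by omega)]
      simp
    · rw [if_neg hc, if_neg hc]
      have hE := YF2_E v e D hd (k + 1 - j)
      have hn : ‖(j : ℂ) * e (k + 1 - j)‖ = j * ‖e (k + 1 - j)‖ := by
        rw [norm_mul, Complex.norm_natCast]
      rw [hn]
      by_cases hkj : k = j
      · rw [if_pos hkj]
        rw [if_pos (by omega)] at hE
        have h2 : AH p m k * ((j : ℝ) * ‖e (k + 1 - j)‖) ≤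
            AH p m k * ((j : ℝ) * (EH (k + 1 - j) - D / 2)) :=
          mul_le_mul_of_nonneg_left (mul_le_mul_of_nonneg_left hE (Nat.cast_nonneg j)) (hA k hk)
        linarith
      · rw [if_neg hkj]
        have hE2 : ‖e (k + 1 - j)‖ ≤ EH (k + 1 - j) := by
          by_cases h3 : k + 1 - j = 1
          · exfalso
            omega
          · rw [if_neg h3] at hE
            linarith
        have h2 : AH p m k * ((j : ℝ) * ‖e (k + 1 - j)‖) ≤ AH p m k * ((j : ℝ) * EH (k + 1 - j)) :=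
          mul_le_mul_of_nonneg_left (mul_le_mul_of_nonneg_left hE2 (Nat.cast_nonneg j)) (hA k hk)
        linarith
  refine (hm m hpm).trans ((Finset.sum_le_sum h1).trans (le_of_eq ?_))
  rw [← Finset.mul_sum, Finset.sum_sub_distrib, Finset.sum_ite_eq' (range (p + 1)) j
    (fun k => AH p m k * (D / 2))]
  by_cases hjp : j ≤ p
  · rw [if_pos (mem_range.2 (by omega)), if_pos hjp]
  · rw [if_neg (fun h => hjp (by have := mem_range.1 h; omega)), if_neg hjp]

theorem YF2 (h1 : YND_stmt) (h2 : YNF_stmt) (h3 : YNW_stmt) : YF2_stmt := by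
  intro p n j v e h D hd hj hjp hn hh hm
  obtain ⟨A, hA⟩ : ∃ A, A = n - p - 1 := ⟨_, rfl⟩
  obtain ⟨r, hr⟩ : ∃ r, r = p + 1 - j := ⟨_, rfl⟩
  have hA1 : 1 ≤ A := by omega
  have hj0 : (0 : ℝ) ≤ j := Nat.cast_nonneg j
  -- splitting
  have hsplit : gs v h n = ∑ k ∈ range (p + 1), v (n - 1 - k) * h k + ∑ k ∈ Ioo p n, v (n - 1 - k) * h k := by
    unfold gs
    have e1 : range n = Ico 0 n := Finset.range_eq_Ico n
    have e2 : range (p + 1) = Ico 0 (p + 1) := Finset.range_eq_Ico (p + 1)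
    have e3 : Ioo p n = Ico (p + 1) n := by
      ext k
      rw [mem_Ioo, mem_Ico]
      omega
    rw [e1, e2, e3]
    exact (Finset.sum_Ico_consecutive _ (Nat.zero_le (p + 1)) (by omega : p + 1 ≤ n)).symm
  -- the nonnegative saving
  have hAA : ∀ m ∈ Ioo p n, j ≤ p → 0 ≤ AH p m j := fun m hm' hjp' =>
    (h3 p m j hjp' (mem_Ioo.1 hm').1).2.1
  obtain ⟨T, hT⟩ : ∃ T : ℝ, T = ∑ m ∈ Ioo p n, (if j ≤ p then AH p m j * (D / 2) else 0) := ⟨_, rfl⟩
  have hD0 : 0 ≤ D / 2 := by
    have := hd.D0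
    linarith
  have hT0 : 0 ≤ T := by
    rw [hT]
    refine Finset.sum_nonneg fun m hm' => ?_
    by_cases hc : j ≤ p
    · rw [if_pos hc]
      exact mul_nonneg (hAA m hm' hc) hD0
    · rw [if_neg hc]
  -- first part
  have hP : ‖∑ i ∈ range (r + 1), v (A + r - i) * e i‖ ≤ TH r + T := by
    unfold TH
    rcases Nat.eq_zero_or_pos r with h0 | h0
    · rw [if_pos h0, h0]
      simp only [zero_add, Finset.sum_range_one, Nat.sub_zero, add_zero, hd.e0, mul_one]
      have := hd.vb A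
      linarith
    · rw [if_neg (by omega)]
      refine (hd.p1 A r hA1 h0).trans ?_
      have hjp' : j ≤ p := by omega
      have h4 : ∑ _m ∈ Ioo p n, (2 * (r : ℝ) - 1) * (D / 2) ≤ T := by
        rw [hT]
        refine Finset.sum_le_sum fun m hm' => ?_
        rw [if_pos hjp']
        have h5 := h2 p m j hj hjp' (mem_Ioo.1 hm').1
        have h6 : (r : ℝ) = (p : ℝ) + 1 - j := by
          rw [hr, Nat.cast_sub (by omega)]
          push_cast
          ring
        rw [h6]
        exact mul_le_mul_of_nonneg_right h5 hD0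
      rw [Finset.sum_const, Nat.card_Ioo, ← hA, nsmul_eq_mul] at h4
      have h7 : (2 * (r : ℝ) - 1) * (A * D / 2) = (A : ℝ) * ((2 * (r : ℝ) - 1) * (D / 2)) := by ring
      rw [h7]
      linarith
  have hlow : ‖∑ k ∈ range (p + 1), v (n - 1 - k) * h k‖ ≤ j * (TH r + T) := by
    rw [YF2_low p n j v e h hj hjp hn hh, ← hA, ← hr, norm_mul, Complex.norm_natCast]
    exact mul_le_mul_of_nonneg_left hP hj0
  -- second part
  have hhigh : ‖∑ k ∈ Ioo p n, v (n - 1 - k) * h k‖ ≤
      j * (∑ m ∈ Ioo p n,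
        ∑ k ∈ range (p + 1), AH p m k * (if k + 1 < j then 0 else EH (k + 1 - j)) - T) := by
    refine (norm_sum_le _ _).trans ?_
    have h4 : ∀ m ∈ Ioo p n, ‖v (n - 1 - m) * h m‖ ≤
        j * (∑ k ∈ range (p + 1), AH p m k * (if k + 1 < j then 0 else EH (k + 1 - j)) -
          (if j ≤ p then AH p m j * (D / 2) else 0)) := by
      intro m hm'
      have hm2 := mem_Ioo.1 hm'
      rw [norm_mul]
      have h5 := YF2_high h3 p j v e h D hd hj hh hm m hm2.1
      have h6 : ‖v (n - 1 - m)‖ * ‖h m‖ ≤ 1 * ‖h m‖ :=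
        mul_le_mul_of_nonneg_right (hd.vb _) (norm_nonneg _)
      linarith
    refine (Finset.sum_le_sum h4).trans (le_of_eq ?_)
    rw [hT, ← Finset.sum_sub_distrib, Finset.mul_sum]
  have hI := h1 p n j hj hjp hn
  rw [← hr] at hI
  rw [hsplit]
  refine (norm_add_le _ _).trans ((add_le_add hlow hhigh).trans (le_of_eq ?_))
  rw [← hI]
  ring

end Pool.Agent.GD
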